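import Pool.Agent.Lib_helper52.YG.Defs

set_option autoImplicit false

namespace Pool.Agent.YG

open MeasureTheory ENNReal Set Filter Topology Pool.Agent.EPS

variable {d : ℕ}

/-- the density of a convolution -/
theorem dn_conv (α β : Measure (EuclideanSpace ℝ (Fin d))) [IsProbabilityMeasure α]
    [IsProbabilityMeasure β] (hα : α ≪ volume) (hβ : β ≪ volume) :
    ∀ᵐ s, ∫⁻ x, dn α x * dn β (s - x) = dn (α.conv β) s := by
  have h1 := rnDeriv_conv (μ := (volume : Measure (EuclideanSpace ℝ (Fin d)))) hα hβ
  filter_upwards [h1] with t ht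
  unfold dn
  rw [ht, lconvolution_def]
  refine lintegral_congr fun x => ?_
  rw [show -x + t = t - x by abel]

theorem dn_basic (α : Measure (EuclideanSpace ℝ (Fin d))) [IsProbabilityMeasure α]
    (hα : α ≪ volume) : Measurable (dn α) ∧ ∫⁻ x, dn α x = 1 ∧ volume.withDensity (dn α) = α := by
  refine ⟨Measure.measurable_rnDeriv α volume, ?_, Measure.withDensity_rnDeriv_eq α volume hα⟩
  have h := Measure.lintegral_rnDeriv hα
  rw [measure_univ] at h
  exact h

end Pool.Agent.YG
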